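import Pool.Agent.Q21.FX

/-!
# Permutation matrices in every dimension with extremal constant at least `2 ^ (√k / 64)`

The 1-entries of a `d`-dimensional `n × ... × n` 0-1 matrix form a finite set of positions `Fin d → Fin n`.
For every `d ≥ 2` and every `k ≥ 66564 = 258 ^ 2` there is a `d`-dimensional `k × ... × k` permutation matrix
`P` with `f(n, P, d) ≥ 2 ^ (√k / 64) * n ^ (d - 1)` for all `n ≥ 2 ^ (√k / 16)`.  In particular
`M_d(k) ≥ 2 ^ (√k / 64)` for every `d ≥ 2`, with an exponent that does not depend on `d`.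
-/

set_option autoImplicit false

open Pool.Agent.Q21.FX

namespace Pool.Agent.Results.MP_f36a55_co.SqrtExponent

theorem result : ∀ d : ℕ, 2 ≤ d → ∀ k : ℕ, 66564 ≤ k →
    ∃ P : Finset (Fin d → Fin k), IsPermMatrix P ∧
      ∀ n : ℕ, (2 : ℝ) ^ (Real.sqrt k / 16) ≤ n →
        (2 : ℝ) ^ (Real.sqrt k / 64) * (n : ℝ) ^ (d - 1) ≤ (exf n P : ℝ) := by
  intro d hd k hk
  obtain ⟨e, rfl⟩ : ∃ e, d = e + 2 := ⟨d - 2, by omega⟩
  have hs : (258 : ℝ) ≤ Real.sqrt k := by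
    have h1 : (258 : ℝ) = Real.sqrt 66564 := by
      rw [show (66564 : ℝ) = 258 ^ 2 by norm_num, Real.sqrt_sq (by norm_num)]
    rw [h1]
    exact Real.sqrt_le_sqrt (by exact_mod_cast hk)
  set u := ⌊(Real.sqrt k - 1) / 32⌋₊ with hu
  have hu0 : (u : ℝ) ≤ (Real.sqrt k - 1) / 32 := Nat.floor_le (by linarith)
  have hu1 : (Real.sqrt k - 1) / 32 < u + 1 := Nat.lt_floor_add_one _
  have hu2 : 1 ≤ u := by
    have : (0 : ℝ) < u := by linarith
    have : 0 < u := by exact_mod_cast this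
    omega
  have hkk : (32 * u + 1) * (32 * u + 1) ≤ k := by
    have h1 : (32 * (u : ℝ) + 1) ≤ Real.sqrt k := by linarith
    have h2 : (32 * (u : ℝ) + 1) * (32 * (u : ℝ) + 1) ≤ Real.sqrt k * Real.sqrt k :=
      mul_self_le_mul_self (by positivity) h1
    rw [Real.mul_self_sqrt (Nat.cast_nonneg k)] at h2
    exact_mod_cast h2
  refine ⟨PP (e + 2) hkk, PP_perm _ hkk, ?_⟩
  intro n hn
  have hn' : 2 ^ (2 * u - 1) ≤ n := by
    have h1 : (2 : ℝ) ^ ((2 * u - 1 : ℕ) : ℝ) ≤ (2 : ℝ) ^ (Real.sqrt k / 16) := by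
      apply Real.rpow_le_rpow_of_exponent_le (by norm_num)
      have : ((2 * u - 1 : ℕ) : ℝ) ≤ 2 * u := by
        have : (2 * u - 1 : ℕ) ≤ 2 * u := by omega
        exact_mod_cast this
      linarith
    rw [Real.rpow_natCast] at h1
    exact_mod_cast h1.trans hn
  have hm := main e u k hu2 hkk n hn'
  have h3 : (2 : ℝ) ^ (Real.sqrt k / 64) * 8 ≤ 2 ^ u := by
    have h4 : (2 : ℝ) ^ (Real.sqrt k / 64) * (2 : ℝ) ^ (3 : ℝ) ≤ (2 : ℝ) ^ (u : ℝ) := by
      rw [← Real.rpow_add (by norm_num)]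
      apply Real.rpow_le_rpow_of_exponent_le (by norm_num)
      linarith
    rw [Real.rpow_natCast] at h4
    have h5 : (2 : ℝ) ^ (3 : ℝ) = 8 := by
      rw [show (3 : ℝ) = ((3 : ℕ) : ℝ) by norm_num, Real.rpow_natCast]; norm_num
    rwa [h5] at h4
  have h6 : e + 2 - 1 = e + 1 := by omega
  rw [h6]
  have h7 : (0 : ℝ) ≤ (n : ℝ) ^ (e + 1) := by positivity
  have h8 := mul_le_mul_of_nonneg_right h3 h7
  linarith

end Pool.Agent.Results.MP_f36a55_co.SqrtExponent
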